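import Pool.Agent.Helper20.PC.Curv

/-!
# Check of the definitions of curvature: the round metric in stereographic coordinates

For `G z = (16 / (‖z‖² + 4)²) • ⟨·,·⟩` the sectional curvature `secCurv G z u v` equals `1`
for all linearly independent `u`, `v`; for the flat metric it equals `0`.
-/

set_option autoImplicit false
set_option maxSynthPendingDepth 3

open Filter Metric Module Set
open scoped Topology ContDiff RealInnerProductSpace

namespace Pool.Agent.Helper27.RS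
open Pool.Agent.Helper20.PC

variable {F : Type*} [NormedAddCommGroup F] [InnerProductSpace ℝ F]

/-- The inner product as a bilinear form. -/
noncomputable def ip (F : Type*) [NormedAddCommGroup F] [InnerProductSpace ℝ F] :
    F →L[ℝ] F →L[ℝ] ℝ := innerSL ℝ

lemma ip_apply (u v : F) : ip F u v = ⟪u, v⟫ := rfl

/-- The function `2 / (‖z‖² + 4)`. -/
noncomputable def hh (z : F) : ℝ := 2 / (‖z‖ ^ 2 + 4)

/-- The round metric of radius one in stereographic coordinates. -/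
noncomputable def Gr (z : F) : F →L[ℝ] F →L[ℝ] ℝ := (4 * hh z ^ 2) • ip F

lemma Gr_apply (z u v : F) : Gr z u v = 4 * hh z ^ 2 * ⟪u, v⟫ := rfl

omit [InnerProductSpace ℝ F] in
lemma den_pos (z : F) : 0 < ‖z‖ ^ 2 + 4 := by positivity

omit [InnerProductSpace ℝ F] in
lemma hh_pos (z : F) : 0 < hh z := div_pos two_pos (den_pos z)

omit [InnerProductSpace ℝ F] in
lemma hh_mul (z : F) : hh z * (‖z‖ ^ 2 + 4) = 2 := by
  unfold hh
  have : ‖z‖ ^ 2 + 4 ≠ 0 := (den_pos z).ne'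
  field_simp

lemma hasFDerivAt_hh (z : F) : HasFDerivAt (hh : F → ℝ) ((-hh z ^ 2) • ip F z) z := by
  have h0 : ‖z‖ ^ 2 + 4 ≠ 0 := (den_pos z).ne'
  have h1 : HasFDerivAt (fun z : F => ‖z‖ ^ 2 + 4) ((2 : ℝ) • ip F z) z := by
    have := ((hasStrictFDerivAt_norm_sq z).hasFDerivAt).add_const (4 : ℝ)
    refine this.congr_fderiv ?_
    rw [two_smul, two_smul]
    rfl
  have h2 : HasDerivAt (fun t : ℝ => 2 / t) (-(2 / (‖z‖ ^ 2 + 4) ^ 2)) (‖z‖ ^ 2 + 4) := by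
    have := (hasDerivAt_inv h0).const_mul (2 : ℝ)
    refine (this.congr_deriv ?_)
    field_simp
  have h3 := h2.comp_hasFDerivAt z h1
  refine h3.congr_fderiv ?_
  rw [smul_smul]
  congr 1
  unfold hh
  field_simp

lemma hasFDerivAt_hh_sq (z : F) : HasFDerivAt (fun z : F => 4 * hh z ^ 2)
    ((-8 * hh z ^ 3) • ip F z) z := by
  have h1 := (hasFDerivAt_hh z).pow 2
  have h2 := h1.const_mul (4 : ℝ)
  refine h2.congr_fderiv ?_
  ext w
  simp
  ring

lemma contDiff_hh : ContDiff ℝ 2 (hh : F → ℝ) := by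
  unfold hh
  exact contDiff_const.div ((contDiff_norm_sq ℝ).add contDiff_const) (fun z => (den_pos z).ne')

lemma contDiff_Gr : ContDiff ℝ 2 (Gr : F → F →L[ℝ] F →L[ℝ] ℝ) :=
  (contDiff_const.mul (contDiff_hh.pow 2)).smul contDiff_const

lemma metAt_Gr (z : F) : MetAt (Gr : F → F →L[ℝ] F →L[ℝ] ℝ) z where
  smooth := contDiff_Gr.contDiffAt
  symm := Eventually.of_forall fun z' u v => by
    rw [Gr_apply, Gr_apply, real_inner_comm]
  pos := Eventually.of_forall fun z' u hu => by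
    rw [Gr_apply, real_inner_self_eq_norm_sq]
    have := hh_pos z'
    have := norm_pos_iff.2 hu
    positivity

lemma dG_Gr (z t u v : F) : dG (Gr : F → F →L[ℝ] F →L[ℝ] ℝ) z t u v
    = -8 * hh z ^ 3 * ⟪z, t⟫ * ⟪u, v⟫ := by
  have h1 : HasFDerivAt (fun z' : F => Gr z' u v) (⟪u, v⟫ • ((-8 * hh z ^ 3) • ip F z)) z := by
    have := (hasFDerivAt_hh_sq z).mul_const (⟪u, v⟫)
    exact this
  rw [dG, h1.fderiv]
  simp [ip_apply]
  ring

variable [FiniteDimensional ℝ F]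

/-- The connection form of the round metric. -/
lemma Gam_Gr (z u v : F) :
    Gam (Gr : F → F →L[ℝ] F →L[ℝ] ℝ) z u v
      = (-hh z) • (⟪z, u⟫ • v + ⟪z, v⟫ • u - ⟪u, v⟫ • z) := by
  refine Gam_unique (metAt_Gr z) fun w => ?_
  rw [chr_apply (metAt_Gr z).smooth, dG_Gr, dG_Gr, dG_Gr, Gr_apply, inner_smul_left,
    inner_sub_left, inner_add_left, inner_smul_left, inner_smul_left, inner_smul_left]
  simp
  ring

lemma fderiv_Gam_Gr (z t u v : F) :
    fderiv ℝ (fun z' => Gam (Gr : F → F →L[ℝ] F →L[ℝ] ℝ) z' u v) z t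
      = (hh z ^ 2 * ⟪z, t⟫) • (⟪z, u⟫ • v + ⟪z, v⟫ • u - ⟪u, v⟫ • z)
        - hh z • (⟪t, u⟫ • v + ⟪t, v⟫ • u - ⟪u, v⟫ • t) := by
  have h0 : (fun z' => Gam (Gr : F → F →L[ℝ] F →L[ℝ] ℝ) z' u v)
      = fun z' => (-hh z') • (⟪z', u⟫ • v + ⟪z', v⟫ • u - ⟪u, v⟫ • z') :=
    funext fun z' => Gam_Gr z' u v
  have h1 : ∀ a : F, HasFDerivAt (fun z' : F => ⟪z', a⟫) (ip F a) z := fun a => by
    have : (fun z' : F => ⟪z', a⟫) = fun z' => ip F a z' := by
      funext z'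
      rw [ip_apply, real_inner_comm]
    rw [this]
    exact (ip F a).hasFDerivAt
  have h2 : HasFDerivAt (fun z' : F => ⟪z', u⟫ • v + ⟪z', v⟫ • u - ⟪u, v⟫ • z')
      ((ip F u).smulRight v + (ip F v).smulRight u - ⟪u, v⟫ • ContinuousLinearMap.id ℝ F) z :=
    (((h1 u).smul_const v).add ((h1 v).smul_const u)).sub ((hasFDerivAt_id z).const_smul _)
  have h3 : HasFDerivAt (fun z' : F => (-hh z') • (⟪z', u⟫ • v + ⟪z', v⟫ • u - ⟪u, v⟫ • z'))
      ((-hh z) • ((ip F u).smulRight v + (ip F v).smulRight u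
          - ⟪u, v⟫ • ContinuousLinearMap.id ℝ F)
        + (-((-hh z ^ 2) • ip F z)).smulRight (⟪z, u⟫ • v + ⟪z, v⟫ • u - ⟪u, v⟫ • z)) z :=
    (hasFDerivAt_hh z).neg.smul h2
  rw [h0, h3.fderiv]
  simp [ip_apply, real_inner_comm t]
  module

/-- The curvature tensor of the round metric. -/
lemma Riem_Gr (z u v w : F) :
    Riem (Gr : F → F →L[ℝ] F →L[ℝ] ℝ) z u v w = Gr z v w • u - Gr z u w • v := by
  have h0 : hh z * ‖z‖ ^ 2 = 2 - 4 * hh z := by
    have := hh_mul z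
    linarith
  have h1 : ‖z‖ ^ 2 * hh z ^ 2 = 2 * hh z - 4 * hh z ^ 2 := by
    linear_combination hh z * h0
  have hz : ∀ a b : F, ⟪z, (-hh z) • (⟪z, a⟫ • b + ⟪z, b⟫ • a - ⟪a, b⟫ • z)⟫
      = (-hh z) * (2 * ⟪z, a⟫ * ⟪z, b⟫ - ⟪a, b⟫ * ‖z‖ ^ 2) := fun a b => by
    rw [inner_smul_right, inner_sub_right, inner_add_right, inner_smul_right, inner_smul_right,
      inner_smul_right, real_inner_self_eq_norm_sq]
    ring
  have hx : ∀ x a b : F, ⟪x, (-hh z) • (⟪z, a⟫ • b + ⟪z, b⟫ • a - ⟪a, b⟫ • z)⟫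
      = (-hh z) * (⟪z, a⟫ * ⟪x, b⟫ + ⟪z, b⟫ * ⟪x, a⟫ - ⟪a, b⟫ * ⟪z, x⟫) := fun x a b => by
    rw [inner_smul_right, inner_sub_right, inner_add_right, inner_smul_right, inner_smul_right,
      inner_smul_right, real_inner_comm x z]
  rw [Riem, fderiv_Gam_Gr, fderiv_Gam_Gr, Gam_Gr z u (Gam Gr z v w), Gam_Gr z v (Gam Gr z u w),
    Gam_Gr, Gam_Gr, Gr_apply, Gr_apply, hz, hz, hx, hx, real_inner_comm u v]
  linear_combination (norm := module) h1 • (-⟪v, w⟫ • u + ⟪u, w⟫ • v)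

omit [FiniteDimensional ℝ F] in
/-- Strict Cauchy–Schwarz inequality. -/
lemma inner_sq_lt {u v : F} (h : LinearIndependent ℝ ![u, v]) :
    ⟪u, v⟫ ^ 2 < ⟪u, u⟫ * ⟪v, v⟫ := by
  have hv : v ≠ 0 := h.ne_zero 1
  have hv2 : 0 < ⟪v, v⟫ := real_inner_self_pos.2 hv
  have hw : ⟪v, v⟫ • u - ⟪u, v⟫ • v ≠ 0 := by
    intro h0
    have h1 := LinearIndependent.pair_iff.1 h (⟪v, v⟫) (-⟪u, v⟫) (by
      rw [neg_smul, ← sub_eq_add_neg]
      exact h0)
    exact hv2.ne' h1.1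
  have h3 := real_inner_self_pos.2 hw
  have h4 : ⟪⟪v, v⟫ • u - ⟪u, v⟫ • v, ⟪v, v⟫ • u - ⟪u, v⟫ • v⟫
      = ⟪v, v⟫ * (⟪u, u⟫ * ⟪v, v⟫ - ⟪u, v⟫ ^ 2) := by
    rw [inner_sub_left, inner_sub_right, inner_sub_right, real_inner_smul_left,
      real_inner_smul_left, real_inner_smul_left, real_inner_smul_left, real_inner_smul_right,
      real_inner_smul_right, real_inner_smul_right, real_inner_smul_right, real_inner_comm u v]
    ring
  rw [h4] at h3
  have h5 := (mul_pos_iff_of_pos_left hv2).1 h3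
  linarith

/-- The sectional curvature of the round metric equals one. -/
theorem secCurv_Gr (z u v : F) (h : LinearIndependent ℝ ![u, v]) :
    secCurv (Gr : F → F →L[ℝ] F →L[ℝ] ℝ) z u v = 1 := by
  rw [secCurv, Riem_Gr, map_sub, map_smul, map_smul, sub_apply,
    _root_.smul_apply, _root_.smul_apply, smul_eq_mul, smul_eq_mul,
    Gr_apply, Gr_apply, Gr_apply, Gr_apply, real_inner_comm u v]
  have h0 := hh_pos z
  have h2 := inner_sq_lt h
  have h3 : 4 * hh z ^ 2 * ⟪u, u⟫ * (4 * hh z ^ 2 * ⟪v, v⟫) - (4 * hh z ^ 2 * ⟪u, v⟫) ^ 2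
      = 16 * hh z ^ 4 * (⟪u, u⟫ * ⟪v, v⟫ - ⟪u, v⟫ ^ 2) := by ring
  rw [div_eq_one_iff_eq]
  · ring
  · rw [h3]
    have : 0 < ⟪u, u⟫ * ⟪v, v⟫ - ⟪u, v⟫ ^ 2 := sub_pos.2 h2
    positivity

end Pool.Agent.Helper27.RS
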