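import Pool.Agent.Helper20.HP.Man
import Pool.Agent.Helper27.RS.Local
import Pool.Agent.Helper28.HP.BR1

/-!
# Check of the definitions of curvature: the induced metric of the unit sphere
-/

set_option autoImplicit false
set_option maxSynthPendingDepth 3

open Filter Metric Module Set
open scoped Topology ContDiff RealInnerProductSpace Manifold

namespace Pool.Agent.Helper27.RS
open Pool.Agent.Helper20.PC Pool.Agent.Helper20.HP

variable {E : Type} [NormedAddCommGroup E] [InnerProductSpace ℝ E]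
  {n : ℕ} [Fact (finrank ℝ E = n + 1)]

/-- The differential of the inclusion of the unit sphere. -/
noncomputable def dj (p : sphere (0 : E) 1) : TangentSpace (𝓡 n) p →L[ℝ] E :=
  mfderiv (𝓡 n) 𝓘(ℝ, E) ((↑) : sphere (0 : E) 1 → E) p

lemma dj_injective (p : sphere (0 : E) 1) : Function.Injective (dj (n := n) p) :=
  mfderiv_coe_sphere_injective p

/-- The induced inner product on the tangent space of the unit sphere. -/
noncomputable def innS (p : sphere (0 : E) 1) :
    TangentSpace (𝓡 n) p →L[ℝ] TangentSpace (𝓡 n) p →L[ℝ] ℝ :=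
  (ContinuousLinearMap.precomp ℝ (dj (n := n) p)).comp ((ip E).comp (dj (n := n) p))

lemma innS_apply (p : sphere (0 : E) 1) (u v : TangentSpace (𝓡 n) p) :
    innS p u v = ⟪dj p u, dj p v⟫ := rfl

lemma contMDiff_innS :
    ContMDiff (𝓡 n) ((𝓡 n).prod 𝓘(ℝ, EuclideanSpace ℝ (Fin n) →L[ℝ]
        EuclideanSpace ℝ (Fin n) →L[ℝ] ℝ)) ∞
      (fun b : sphere (0 : E) 1 =>
        (Bundle.TotalSpace.mk' (EuclideanSpace ℝ (Fin n) →L[ℝ]
          EuclideanSpace ℝ (Fin n) →L[ℝ] ℝ) b (innS b) :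
          Bundle.TotalSpace (EuclideanSpace ℝ (Fin n) →L[ℝ]
          EuclideanSpace ℝ (Fin n) →L[ℝ] ℝ)
          (fun b : sphere (0 : E) 1 =>
            TangentSpace (𝓡 n) b →L[ℝ] TangentSpace (𝓡 n) b →L[ℝ] ℝ))) := by
  intro x₀
  rw [Bundle.contMDiffAt_section]
  have hD : ContMDiffAt (𝓡 n) 𝓘(ℝ, EuclideanSpace ℝ (Fin n) →L[ℝ] E) ∞
      (inTangentCoordinates (𝓡 n) 𝓘(ℝ, E) id ((↑) : sphere (0 : E) 1 → E)
        (mfderiv (𝓡 n) 𝓘(ℝ, E) ((↑) : sphere (0 : E) 1 → E)) x₀) x₀ :=
    ((contMDiff_coe_sphere (m := ω)) x₀).mfderiv_const (by simp)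
  set D := inTangentCoordinates (𝓡 n) 𝓘(ℝ, E) id ((↑) : sphere (0 : E) 1 → E)
        (mfderiv (𝓡 n) 𝓘(ℝ, E) ((↑) : sphere (0 : E) 1 → E)) x₀ with hDdef
  have hp : ContMDiffAt (𝓡 n)
      𝓘(ℝ, (E →L[ℝ] ℝ) →L[ℝ] (EuclideanSpace ℝ (Fin n) →L[ℝ] ℝ)) ∞
      (fun x => ((ContinuousLinearMap.compL ℝ
        (EuclideanSpace ℝ (Fin n)) E ℝ).flip (D x))) x₀ :=
    ((ContinuousLinearMap.compL ℝ
        (EuclideanSpace ℝ (Fin n)) E ℝ).flip.contMDiff).contMDiffAt.comp
      x₀ hD
  have hG := hp.clm_comp (contMDiffAt_const.clm_comp hD (g := fun _ => ip E))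
  refine hG.congr_of_eventuallyEq ?_
  have hx : x₀ ∈ (trivializationAt (EuclideanSpace ℝ (Fin n))
      (TangentSpace (𝓡 n) : sphere (0 : E) 1 → Type) x₀).baseSet :=
    FiberBundle.mem_baseSet_trivializationAt' x₀
  filter_upwards [(trivializationAt (EuclideanSpace ℝ (Fin n))
      (TangentSpace (𝓡 n) : sphere (0 : E) 1 → Type) x₀).open_baseSet.mem_nhds hx]
    with x hxb
  refine ContinuousLinearMap.ext fun v => ContinuousLinearMap.ext fun w => ?_
  have hDx : ∀ v : EuclideanSpace ℝ (Fin n), D x v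
      = dj (n := n) x ((trivializationAt
        (EuclideanSpace ℝ (Fin n))
        (TangentSpace (𝓡 n) : sphere (0 : E) 1 → Type) x₀).symmL
          ℝ x v) := by
    intro v
    simp only [hDdef, inTangentCoordinates, ContinuousLinearMap.inCoordinates,
      ContinuousLinearMap.comp_apply, id_eq]
    simp [dj]
    rfl
  have hL : ((trivializationAt
      (EuclideanSpace ℝ (Fin n) →L[ℝ] EuclideanSpace ℝ (Fin n) →L[ℝ] ℝ)
      (fun b : sphere (0 : E) 1 =>
        TangentSpace (𝓡 n) b →L[ℝ] TangentSpace (𝓡 n) b →L[ℝ] ℝ) x₀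
        ⟨x, innS x⟩).2 v) w = innS x ((trivializationAt
        (EuclideanSpace ℝ (Fin n))
        (TangentSpace (𝓡 n) : sphere (0 : E) 1 → Type) x₀).symmL
          ℝ x v) ((trivializationAt
        (EuclideanSpace ℝ (Fin n))
        (TangentSpace (𝓡 n) : sphere (0 : E) 1 → Type) x₀).symmL
          ℝ x w) := by
    rw [hom_trivializationAt_apply]
    simp only [ContinuousLinearMap.inCoordinates, ContinuousLinearMap.comp_apply]
    have hb : x ∈ (trivializationAt
        (EuclideanSpace ℝ (Fin n) →L[ℝ] ℝ)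
        (fun b : sphere (0 : E) 1 =>
          TangentSpace (𝓡 n) b →L[ℝ] ℝ) x₀).baseSet := by
      rw [hom_trivializationAt_baseSet]
      exact ⟨hxb, by simp⟩
    rw [Bundle.Trivialization.continuousLinearMapAt_apply, Bundle.Trivialization.linearMapAt_apply,
      if_pos hb, hom_trivializationAt_apply]
    simp only [ContinuousLinearMap.inCoordinates, ContinuousLinearMap.comp_apply]
    simp
  rw [hL, innS_apply, ← hDx, ← hDx]
  rfl

lemma innS_pos (p : sphere (0 : E) 1) (v : TangentSpace (𝓡 n) p) (hv : v ≠ 0) :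
    0 < innS p v v := by
  rw [innS_apply]
  refine real_inner_self_pos.2 fun h => hv ?_
  apply dj_injective (n := n) p
  rw [h]
  exact (map_zero (dj (n := n) p)).symm

lemma isVonNBounded_innS (p : sphere (0 : E) 1) :
    Bornology.IsVonNBounded ℝ {v : TangentSpace (𝓡 n) p | innS p v v < 1} := by
  let B : EuclideanSpace ℝ (Fin n) →L[ℝ] EuclideanSpace ℝ (Fin n) →L[ℝ] ℝ := innS (n := n) p
  have hpos : ∀ v : EuclideanSpace ℝ (Fin n), v ≠ 0 → 0 < B v v := fun v hv => innS_pos p v hv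
  obtain ⟨c, hc, hlow⟩ := Pool.Agent.Helper28.HP.BR.exists_lower B hpos
  have hb : Bornology.IsVonNBounded ℝ
      (closedBall (0 : EuclideanSpace ℝ (Fin n)) (1 / c + 1)) :=
    NormedSpace.isVonNBounded_closedBall _ _ _
  have hsub : {v : EuclideanSpace ℝ (Fin n) | B v v < 1}
      ⊆ closedBall (0 : EuclideanSpace ℝ (Fin n)) (1 / c + 1) := by
    intro v hv
    have h1 := hlow v
    have h2 : B v v < 1 := hv
    rw [mem_closedBall_zero_iff]
    by_contra hcon
    push Not at hcon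
    have h4 : 0 < 1 / c := by positivity
    have h5 : 1 ≤ ‖v‖ := by linarith
    have h6 : ‖v‖ ≤ ‖v‖ ^ 2 := by nlinarith only [hcon, h4]
    have h7 : 1 / c < ‖v‖ := by linarith only [hcon]
    have h8 : 1 < c * ‖v‖ := by
      rw [div_lt_iff₀ hc] at h7
      linarith only [h7]
    have h9 : c * ‖v‖ ≤ c * ‖v‖ ^ 2 := mul_le_mul_of_nonneg_left h6 hc.le
    linarith only [h1, h2, h8, h9]
  exact hb.subset hsub

/-- The Riemannian metric of the unit sphere induced by the inner product. -/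
noncomputable def roundMetric (E : Type) [NormedAddCommGroup E] [InnerProductSpace ℝ E]
    (n : ℕ) [Fact (finrank ℝ E = n + 1)] :
    Bundle.ContMDiffRiemannianMetric (𝓡 n) ∞ (EuclideanSpace ℝ (Fin n))
      (fun x : sphere (0 : E) 1 => TangentSpace (𝓡 n) x) where
  inner p := innS p
  symm p u v := by rw [innS_apply, innS_apply, real_inner_comm]
  pos p v hv := innS_pos p v hv
  isVonNBounded p := isVonNBounded_innS p
  contMDiff := contMDiff_innS

lemma roundMetric_inner (p : sphere (0 : E) 1) (u v : TangentSpace (𝓡 n) p) :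
    (roundMetric E n).inner p u v
      = @inner ℝ E _ (mfderiv (𝓡 n) 𝓘(ℝ, E) ((↑) : sphere (0 : E) 1 → E) p u)
        (mfderiv (𝓡 n) 𝓘(ℝ, E) ((↑) : sphere (0 : E) 1 → E) p v) := rfl

end Pool.Agent.Helper27.RS
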