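import Pool.Agent.Helper27.RS.Metric

/-!
# Check of the definitions of curvature: the unit sphere has sectional curvature one

`Pool.Agent.Helper20.HP.sectionalCurvature` of the metric of the unit sphere of a Euclidean space
induced by the inner product is the constant `1`.
-/

set_option autoImplicit false
set_option maxSynthPendingDepth 3

open Filter Metric Module Set
open scoped Topology ContDiff RealInnerProductSpace Manifold

namespace Pool.Agent.Helper27.RS
open Pool.Agent.Helper20.PC Pool.Agent.Helper20.HP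

variable {E : Type} [NormedAddCommGroup E] [InnerProductSpace ℝ E]
  {n : ℕ} [Fact (finrank ℝ E = n + 1)]

/-- The inverse of the preferred chart, as a map to the ambient space. -/
noncomputable def par (p : sphere (0 : E) 1) (y : EuclideanSpace ℝ (Fin n)) : E :=
  ((extChartAt (𝓡 n) p).symm y : sphere (0 : E) 1)

lemma exists_par (p : sphere (0 : E) 1) :
    ∃ (U : EuclideanSpace ℝ (Fin n) →ₗᵢ[ℝ] E) (q : E), ‖q‖ = 1 ∧ (∀ y, ⟪U y, q⟫ = 0) ∧
      ∀ y, par p y = (2 * hh y) • U y + (1 - 4 * hh y) • q := by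
  let v : sphere (0 : E) 1 := -p
  let U : (ℝ ∙ (v : E))ᗮ ≃ₗᵢ[ℝ] EuclideanSpace ℝ (Fin n) :=
    (OrthonormalBasis.fromOrthogonalSpanSingleton n (ne_zero_of_mem_unit_sphere v)).repr
  refine ⟨(Submodule.subtypeₗᵢ _).comp U.symm.toLinearIsometry, v, by simp, fun y => ?_,
    fun y => ?_⟩
  · exact Submodule.mem_orthogonal_singleton_iff_inner_left.mp (U.symm y).2
  · have h1 : par p y = ((stereographic' n v).symm y : E) := rfl
    have h2 : ‖((U.symm y : (ℝ ∙ (v : E))ᗮ) : E)‖ = ‖y‖ := by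
      rw [← Submodule.coe_norm, LinearIsometryEquiv.norm_map]
    rw [h1, stereographic'_symm_apply]
    change (‖((U.symm y : (ℝ ∙ (v : E))ᗮ) : E)‖ ^ 2 + 4)⁻¹ • (4 : ℝ) •
        ((U.symm y : (ℝ ∙ (v : E))ᗮ) : E) +
      (‖((U.symm y : (ℝ ∙ (v : E))ᗮ) : E)‖ ^ 2 + 4)⁻¹ •
        (‖((U.symm y : (ℝ ∙ (v : E))ᗮ) : E)‖ ^ 2 - 4) • (v : E)
      = (2 * hh y) • ((U.symm y : (ℝ ∙ (v : E))ᗮ) : E) + (1 - 4 * hh y) • (v : E)
    have h3 : (‖y‖ ^ 2 + 4 : ℝ) ≠ 0 := (den_pos y).ne'
    rw [h2, smul_smul, smul_smul]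
    congr 2
    · unfold hh
      field_simp
      ring
    · unfold hh
      field_simp
      ring

lemma mdifferentiableAt_symm (p : sphere (0 : E) 1) (y : EuclideanSpace ℝ (Fin n)) :
    MDifferentiableAt 𝓘(ℝ, EuclideanSpace ℝ (Fin n)) (𝓡 n) (extChartAt (𝓡 n) p).symm y := by
  have hy : y ∈ (extChartAt (𝓡 n) p).target := by
    have : (extChartAt (𝓡 n) p).target = univ := by
      rw [extChartAt_target]
      simp [chartAt, ChartedSpace.chartAt]
    rw [this]
    trivial
  exact ((contMDiffOn_extChartAt_symm (I := 𝓡 n) (n := ω) p).contMDiffAt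
    ((isOpen_extChartAt_target p).mem_nhds hy)).mdifferentiableAt (by simp)

/-- The differential of `par p`. -/
noncomputable def dpar (p : sphere (0 : E) 1) (y : EuclideanSpace ℝ (Fin n)) :
    EuclideanSpace ℝ (Fin n) →L[ℝ] E :=
  (dj (n := n) ((extChartAt (𝓡 n) p).symm y)).comp
      (mfderiv 𝓘(ℝ, EuclideanSpace ℝ (Fin n)) (𝓡 n) (extChartAt (𝓡 n) p).symm y)

lemma hasFDerivAt_par (p : sphere (0 : E) 1) (y : EuclideanSpace ℝ (Fin n)) :
    HasFDerivAt (par p) (dpar p y) y := by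
  have h1 : HasMFDerivAt (𝓡 n) 𝓘(ℝ, E) ((↑) : sphere (0 : E) 1 → E)
      ((extChartAt (𝓡 n) p).symm y) (dj (n := n) ((extChartAt (𝓡 n) p).symm y)) :=
    ((contMDiff_coe_sphere (m := ω)).mdifferentiableAt (by simp)).hasMFDerivAt
  have h2 := (mdifferentiableAt_symm p y).hasMFDerivAt
  have h3 := HasMFDerivAt.comp (g := ((↑) : sphere (0 : E) 1 → E))
    (f := ((extChartAt (𝓡 n) p).symm : EuclideanSpace ℝ (Fin n) → sphere (0 : E) 1)) y h1 h2
  exact h3.hasFDerivAt

lemma inner_fderiv_par (p : sphere (0 : E) 1) (y u v : EuclideanSpace ℝ (Fin n)) :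
    ⟪fderiv ℝ (par p) y u, fderiv ℝ (par p) y v⟫ = Gr y u v := by
  obtain ⟨U, q, hq, hU, hp⟩ := exists_par (n := n) p
  have h0 : par p = fun y => (2 * hh y) • U y + (1 - 4 * hh y) • q := funext hp
  have h1 := hasFDerivAt_hh y
  have h2 : HasFDerivAt (fun y => (2 * hh y) • U y + (1 - 4 * hh y) • q)
      ((2 * hh y) • U.toContinuousLinearMap
        + (((2 : ℝ) • ((-hh y ^ 2) • ip (EuclideanSpace ℝ (Fin n)) y)).smulRight (U y))
        + (-((4 : ℝ) • ((-hh y ^ 2) • ip (EuclideanSpace ℝ (Fin n)) y))).smulRight q) y := by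
    have a1 : HasFDerivAt (fun y => U y) U.toContinuousLinearMap y :=
      U.toContinuousLinearMap.hasFDerivAt
    have a2 := (h1.const_mul 2).smul a1
    have a3 := ((h1.const_mul 4).const_sub 1).smul_const q
    exact a2.add a3
  have hu : ∀ u, fderiv ℝ (par p) y u
      = (2 * hh y) • U u - (2 * hh y ^ 2 * ⟪y, u⟫) • U y + (4 * hh y ^ 2 * ⟪y, u⟫) • q := by
    intro u
    rw [h0, h2.fderiv]
    simp [ip_apply]
    module
  have hUU : ∀ a b, ⟪U a, U b⟫ = ⟪a, b⟫ := fun a b => U.inner_map_map a b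
  have hqU : ∀ a, ⟪q, U a⟫ = 0 := fun a => by rw [real_inner_comm, hU]
  have hqq : ⟪q, q⟫ = 1 := by rw [real_inner_self_eq_norm_sq, hq]; norm_num
  have h3 := hh_mul y
  rw [hu, hu, Gr_apply]
  simp only [inner_add_left, inner_add_right, inner_sub_left, inner_sub_right,
    real_inner_smul_left, real_inner_smul_right, hUU, hqU, hU, hqq, real_inner_self_eq_norm_sq]
  rw [real_inner_comm y u]
  linear_combination (4 * hh y ^ 3 * ⟪y, u⟫ * ⟪y, v⟫) * h3

lemma coordMetric_round (p : sphere (0 : E) 1) :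
    coordMetric (roundMetric E n) p = Gr := by
  funext y
  refine ContinuousLinearMap.ext fun u => ContinuousLinearMap.ext fun v => ?_
  rw [← inner_fderiv_par p, (hasFDerivAt_par p y).fderiv]
  rfl

/-- The unit sphere with the induced metric has sectional curvature one. -/
theorem sectionalCurvature_sphere (p : sphere (0 : E) 1) (u v : TangentSpace (𝓡 n) p)
    (h : LinearIndependent ℝ ![u, v]) :
    sectionalCurvature (roundMetric E n) p u v = 1 := by
  rw [sectionalCurvature, coordMetric_round]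
  exact secCurv_Gr (F := EuclideanSpace ℝ (Fin n)) _ u v h

end Pool.Agent.Helper27.RS
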